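import Pool.Agent.Helper56.TOF.Goals

set_option autoImplicit false

open Set Filter Topology MeasureTheory

open scoped ContDiff

namespace Pool.Agent.Helper62.TOF

open Pool.Agent.Helper56.RZ Pool.Agent.Helper30.CIR Pool.Agent.Helper56.TOF

lemma ee_add_nat (q : ℕ) (u : ℝ) : ee (q * (u + 1)) = ee (q * u) := by
  unfold ee
  have h : ((2 * Real.pi * (q * (u + 1)) : ℝ) : ℂ) * Complex.I =
      ((2 * Real.pi * (q * u) : ℝ) : ℂ) * Complex.I + q * (2 * Real.pi * Complex.I) := by
    push_cast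
    ring
  rw [h]
  exact (Complex.exp_periodic.nat_mul q) _

lemma norm_ee (u : ℝ) : ‖ee u‖ = 1 := by
  unfold ee
  exact Complex.norm_exp_ofReal_mul_I _

lemma am_nonneg {K : ℕ} (B : E K → ℝ) (b0 : ℝ) (x : E K) : 0 ≤ am B b0 x :=
  Real.smoothTransition.nonneg _

lemma am_le_one {K : ℕ} (B : E K → ℝ) (b0 : ℝ) (x : E K) : am B b0 x ≤ 1 :=
  Real.smoothTransition.le_one _

lemma cq_nonneg (q r : ℕ) : 0 ≤ cq q r := by
  unfold cq
  positivity

/-- facts about one profile -/
lemma c_bounds {K : ℕ} (B : E K → ℝ) (b0 z0 : ℝ) (q r : ℕ) (hz : cq q r < z0) (x : E K) :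
    0 ≤ cq q r * am B b0 x ∧ cq q r * am B b0 x < z0 := by
  have h1 := cq_nonneg q r
  have h2 := am_nonneg B b0 x
  have h3 := am_le_one B b0 x
  refine ⟨mul_nonneg h1 h2, ?_⟩
  nlinarith

lemma norm_zz {K : ℕ} (B tau : E K → ℝ) (b0 z0 : ℝ) (q r : ℕ) (al : ℝ) (hz : cq q r < z0)
    (x : E K) : ‖zz B tau b0 q r al x‖ < z0 := by
  unfold zz
  rw [norm_mul, norm_ee, mul_one, Complex.norm_real, Real.norm_eq_abs,
    abs_of_nonneg (c_bounds B b0 z0 q r hz x).1]
  exact (c_bounds B b0 z0 q r hz x).2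

section

variable {K : ℕ} {B tau : E K → ℝ} {b0 z0 : ℝ} {Φ Φ' : ℂ × ℝ × ℝ → ℝ} {q r : ℕ} {al : ℝ}

lemma th_zero_of_B (hΦ : PF z0 Φ) (hb0 : 0 < b0) (x : E K) (hB : ¬ 0 < B x) :
    th Φ B tau b0 q r al x = 0 := by
  have h1 : am B b0 x = 0 := by
    unfold am
    apply Real.smoothTransition.zero_of_nonpos
    have : B x / b0 ≤ 0 := div_nonpos_of_nonpos_of_nonneg (not_lt.mp hB) hb0.le
    linarith
  have h2 : zz B tau b0 q r al x = 0 := by
    unfold zz
    rw [h1]
    simp
  unfold th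
  rw [h2, hΦ.zero]
  simp

lemma inv_q_le (hq : 1 ≤ q) : |(1 : ℝ) / q| ≤ 1 := by
  have h1 : (1 : ℝ) ≤ q := by exact_mod_cast hq
  rw [abs_of_nonneg (by positivity)]
  rw [div_le_one (by linarith)]
  exact h1

lemma th_zero_off (hΦ : PF z0 Φ) (hq : 1 ≤ q) (hz : cq q r < z0) (x : E K)
    (h : al * tau x ≤ -1 ∨ 5 / 2 ≤ al * tau x) : th Φ B tau b0 q r al x = 0 := by
  unfold th
  rw [hΦ.off _ _ _ (norm_zz B tau b0 z0 q r al hz x) (inv_q_le hq) h]
  simp

/-- `al * th` in terms of the profile -/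
lemma al_th (hq : 1 ≤ q) (hal : 1 ≤ al) (x : E K) (v : ℝ) (hv : al * tau x = v) :
    al * th Φ B tau b0 q r al x =
      Φ (((cq q r * am B b0 x : ℝ) : ℂ) * ee (q * v), v, 1 / q) / q := by
  unfold th zz
  rw [hv]
  have h1 : (q : ℝ) ≠ 0 := by
    have : (1 : ℝ) ≤ q := by exact_mod_cast hq
    linarith
  have h2 : al ≠ 0 := by linarith
  field_simp

lemma step1 (hP : Pair z0 Φ Φ') (hq : 1 ≤ q) (hz : cq q r < z0) (hal : 1 ≤ al) (x : E K) (ξ : ℝ)
    (hξ : al * tau x = Psi q (cq q r * am B b0 x) ξ) :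
    al * tau x + 1 + al * th Φ B tau b0 q r al x = Psi q (cq q r * am B b0 x) (ξ + 1) := by
  have h := hP.step q (cq q r * am B b0 x) ξ hq (c_bounds B b0 z0 q r hz x).1
    (c_bounds B b0 z0 q r hz x).2
  rw [al_th hq hal x _ hξ, hξ, h]

lemma step2 (hP : Pair z0 Φ Φ') (hq : 1 ≤ q) (hz : cq q r < z0) (hal : 1 ≤ al) (x : E K) (ξ : ℝ)
    (hξ : al * tau x = Psi q (cq q r * am B b0 x) ξ) :
    al * tau x - 1 + al * th Φ' B tau b0 q r al x = Psi q (cq q r * am B b0 x) (ξ - 1) := by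
  have h := hP.step' q (cq q r * am B b0 x) ξ hq (c_bounds B b0 z0 q r hz x).1
    (c_bounds B b0 z0 q r hz x).2
  rw [al_th hq hal x _ hξ, hξ, h]

/-- properties of the straightening map used here -/
structure PsiP (q : ℕ) (c : ℝ) : Prop where
  surj : Function.Surjective (Psi q c)
  neg : ∀ u, u ≤ 0 → Psi q c u = u
  add : ∀ u, 1 ≤ u → Psi q c (u + 1) = Psi q c u + 1
  near : ∀ u, |Psi q c u - u| ≤ 1 / 10

lemma psiP (hPSI : StmtPSI) {q : ℕ} {c z0 : ℝ} (hq : 1 ≤ q) (h0 : 0 ≤ c) (h1 : c < z0)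
    (hz : z0 ≤ 1 / 10) : PsiP q c := by
  obtain ⟨C, -, hC⟩ := hPSI
  obtain ⟨s, h⟩ := hC q c hq h0 (by linarith)
  refine ⟨s, fun u => (h u).1, ?_, ?_⟩
  · intro u hu
    rw [(h u).2.1 hu, (h (u + 1)).2.1 (by linarith), ee_add_nat]
    ring
  · intro u
    refine (h u).2.2.1.trans ?_
    have hq1 : (1 : ℝ) ≤ q := by exact_mod_cast hq
    rw [div_le_iff₀ (by linarith)]
    nlinarith

/-- beyond `11/10` the shift of the forward pass is zero -/
lemma th_zero_right (hPSI : StmtPSI) (hP : Pair z0 Φ Φ') (hq : 1 ≤ q) (hz : cq q r < z0)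
    (hal : 1 ≤ al) (x : E K) (h : 11 / 10 ≤ al * tau x) : th Φ B tau b0 q r al x = 0 := by
  have pp := psiP hPSI hq (c_bounds B b0 z0 q r hz x).1 (c_bounds B b0 z0 q r hz x).2 hP.pf.le
  obtain ⟨ξ, hξ⟩ := pp.surj (al * tau x)
  have h1 := pp.near ξ
  rw [hξ, abs_le] at h1
  have h2 := pp.add ξ (by linarith [h1.2])
  have h3 := step1 hP hq hz hal x ξ hξ.symm
  rw [h2, hξ] at h3
  have h4 : al * th Φ B tau b0 q r al x = 0 := by linarith
  rcases mul_eq_zero.mp h4 with h5 | h5
  · linarith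
  · exact h5

/-- before `-1/10` the shift of the backward pass is zero -/
lemma th_zero_left (hPSI : StmtPSI) (hP : Pair z0 Φ Φ') (hq : 1 ≤ q) (hz : cq q r < z0)
    (hal : 1 ≤ al) (x : E K) (h : al * tau x ≤ -(1 / 10)) : th Φ' B tau b0 q r al x = 0 := by
  have pp := psiP hPSI hq (c_bounds B b0 z0 q r hz x).1 (c_bounds B b0 z0 q r hz x).2 hP.pf.le
  obtain ⟨ξ, hξ⟩ := pp.surj (al * tau x)
  have h1 := pp.near ξ
  rw [hξ, abs_le] at h1
  have h2 := pp.neg ξ (by linarith [h1.1])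
  have h2' := pp.neg (ξ - 1) (by linarith [h1.1])
  have h3 := step2 hP hq hz hal x ξ hξ.symm
  rw [h2'] at h3
  have h4 : al * th Φ' B tau b0 q r al x = 0 := by linarith
  rcases mul_eq_zero.mp h4 with h5 | h5
  · linarith
  · exact h5

variable {s : WithTop ℕ∞} {M : Set (E K)} {A : ℝ → E K → E K} {b : E K → ℝ} {p : E K}

/-- first identity, near a centre -/
lemma id1_near (hPSI : StmtPSI) (hF : Flow s M A) (hX : Box s M A b B tau p) (hb0 : 0 < b0)
    (hP : Pair z0 Φ Φ') (hq : 1 ≤ q) (hz : cq q r < z0) (hal : 1 ≤ al) (hal' : al ≤ 11 / 10)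
    (x : E K) (hx : x ∈ M) (hB : 0 < B x) (ht : |tau x| ≤ 5 / 2) :
    th Φ' B tau b0 q r al (A (1 / al + th Φ B tau b0 q r al x) x) = - th Φ B tau b0 q r al x := by
  have al0 : 0 < al := by linarith
  have pp := psiP hPSI hq (c_bounds B b0 z0 q r hz x).1 (c_bounds B b0 z0 q r hz x).2 hP.pf.le
  obtain ⟨ξ, hξ⟩ := pp.surj (al * tau x)
  have h1 := pp.near ξ
  have h1' := pp.near (ξ + 1)
  rw [hξ, abs_le] at h1
  rw [abs_le] at h1'
  have h3 := step1 hP hq hz hal x ξ hξ.symm
  rw [abs_le] at ht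
  -- the new time
  have key : al * (tau x + (1 / al + th Φ B tau b0 q r al x)) =
      Psi q (cq q r * am B b0 x) (ξ + 1) := by
    rw [← h3]
    field_simp
    ring
  have hb : |tau x + (1 / al + th Φ B tau b0 q r al x)| ≤ 7 / 2 := by
    by_cases h : 11 / 10 ≤ al * tau x
    · rw [th_zero_right hPSI hP hq hz hal x h]
      have h5 : 1 / al ≤ 1 := by rw [div_le_one al0]; exact hal
      have h6 : 0 < 1 / al := by positivity
      have h7 : 0 < tau x := by
        by_contra h8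
        have h9 : al * tau x ≤ 0 := mul_nonpos_of_nonneg_of_nonpos al0.le (not_lt.mp h8)
        linarith
      rw [abs_le]
      constructor <;> linarith [ht.1, ht.2]
    · have h' := not_le.mp h
      rw [abs_le]
      constructor
      · by_contra h8
        have h9 := not_le.mp h8
        have h10 : al * (tau x + (1 / al + th Φ B tau b0 q r al x)) < al * (-(7 / 2)) :=
          mul_lt_mul_of_pos_left h9 al0
        rw [key] at h10
        have h11 : al * (-(5 / 2)) ≤ al * tau x := mul_le_mul_of_nonneg_left ht.1 al0.le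
        linarith [h1.1, h1.2, h1'.1, h1'.2]
      · by_contra h8
        have h9 := not_le.mp h8
        have h10 : al * (7 / 2) < al * (tau x + (1 / al + th Φ B tau b0 q r al x)) :=
          mul_lt_mul_of_pos_left h9 al0
        rw [key] at h10
        linarith [h1.1, h1.2, h1'.1, h1'.2]
  have ht' : |tau x| ≤ 7 / 2 := by
    rw [abs_le]
    constructor <;> linarith [ht.1, ht.2]
  obtain ⟨e1, e2⟩ := hX.eqv x hx (1 / al + th Φ B tau b0 q r al x) hB ht' hb
  have eam : am B b0 (A (1 / al + th Φ B tau b0 q r al x) x) = am B b0 x := by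
    unfold am
    rw [e1]
  have h4 : al * tau (A (1 / al + th Φ B tau b0 q r al x) x) =
      Psi q (cq q r * am B b0 (A (1 / al + th Φ B tau b0 q r al x) x)) (ξ + 1) := by
    rw [e2, eam]
    exact key
  have h5 := step2 hP hq hz hal _ (ξ + 1) h4
  rw [e2, eam, key, ← h3, add_sub_cancel_right, hξ] at h5
  have h6 : al * (th Φ' B tau b0 q r al (A (1 / al + th Φ B tau b0 q r al x) x) +
      th Φ B tau b0 q r al x) = 0 := by linarith
  rcases mul_eq_zero.mp h6 with h7 | h7
  · linarith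
  · linarith

/-- second identity, near a centre -/
lemma id2_near (hPSI : StmtPSI) (hF : Flow s M A) (hX : Box s M A b B tau p) (hb0 : 0 < b0)
    (hP : Pair z0 Φ Φ') (hq : 1 ≤ q) (hz : cq q r < z0) (hal : 1 ≤ al) (hal' : al ≤ 11 / 10)
    (x : E K) (hx : x ∈ M) (hB : 0 < B x) (ht : |tau x| ≤ 5 / 2) :
    th Φ B tau b0 q r al (A (-(1 / al) + th Φ' B tau b0 q r al x) x) =
      - th Φ' B tau b0 q r al x := by
  have al0 : 0 < al := by linarith
  have pp := psiP hPSI hq (c_bounds B b0 z0 q r hz x).1 (c_bounds B b0 z0 q r hz x).2 hP.pf.le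
  obtain ⟨ξ, hξ⟩ := pp.surj (al * tau x)
  have h1 := pp.near ξ
  have h1' := pp.near (ξ - 1)
  rw [hξ, abs_le] at h1
  rw [abs_le] at h1'
  have h3 := step2 hP hq hz hal x ξ hξ.symm
  rw [abs_le] at ht
  have key : al * (tau x + (-(1 / al) + th Φ' B tau b0 q r al x)) =
      Psi q (cq q r * am B b0 x) (ξ - 1) := by
    rw [← h3]
    field_simp
    ring
  have hb : |tau x + (-(1 / al) + th Φ' B tau b0 q r al x)| ≤ 7 / 2 := by
    by_cases h : al * tau x ≤ -(1 / 10)
    · rw [th_zero_left hPSI hP hq hz hal x h]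
      have h5 : 1 / al ≤ 1 := by rw [div_le_one al0]; exact hal
      have h6 : 0 < 1 / al := by positivity
      have h7 : tau x < 0 := by
        by_contra h8
        have h9 : 0 ≤ al * tau x := mul_nonneg al0.le (not_lt.mp h8)
        linarith
      rw [abs_le]
      constructor <;> linarith [ht.1, ht.2]
    · have h' := not_le.mp h
      rw [abs_le]
      constructor
      · by_contra h8
        have h9 := not_le.mp h8
        have h10 : al * (tau x + (-(1 / al) + th Φ' B tau b0 q r al x)) < al * (-(7 / 2)) :=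
          mul_lt_mul_of_pos_left h9 al0
        rw [key] at h10
        linarith [h1.1, h1.2, h1'.1, h1'.2]
      · by_contra h8
        have h9 := not_le.mp h8
        have h10 : al * (7 / 2) < al * (tau x + (-(1 / al) + th Φ' B tau b0 q r al x)) :=
          mul_lt_mul_of_pos_left h9 al0
        rw [key] at h10
        have h11 : al * tau x ≤ al * (5 / 2) := mul_le_mul_of_nonneg_left ht.2 al0.le
        linarith [h1.1, h1.2, h1'.1, h1'.2]
  have ht' : |tau x| ≤ 7 / 2 := by
    rw [abs_le]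
    constructor <;> linarith [ht.1, ht.2]
  obtain ⟨e1, e2⟩ := hX.eqv x hx (-(1 / al) + th Φ' B tau b0 q r al x) hB ht' hb
  have eam : am B b0 (A (-(1 / al) + th Φ' B tau b0 q r al x) x) = am B b0 x := by
    unfold am
    rw [e1]
  have h4 : al * tau (A (-(1 / al) + th Φ' B tau b0 q r al x) x) =
      Psi q (cq q r * am B b0 (A (-(1 / al) + th Φ' B tau b0 q r al x) x)) (ξ - 1) := by
    rw [e2, eam]
    exact key
  have h5 := step1 hP hq hz hal _ (ξ - 1) h4
  rw [e2, eam, key, ← h3, sub_add_cancel, hξ] at h5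
  have h6 : al * (th Φ B tau b0 q r al (A (-(1 / al) + th Φ' B tau b0 q r al x) x) +
      th Φ' B tau b0 q r al x) = 0 := by linarith
  rcases mul_eq_zero.mp h6 with h7 | h7
  · linarith
  · linarith

lemma al_bound (hal : 1 ≤ al) {t : ℝ} (h : 5 / 2 < |t|) : al * t ≤ -1 ∨ 5 / 2 ≤ al * t := by
  have al0 : 0 < al := by linarith
  rcases le_total 0 t with h0 | h0
  · right
    rw [abs_of_nonneg h0] at h
    nlinarith
  · left
    rw [abs_of_nonpos h0] at h
    nlinarith

/-- first identity -/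
lemma id1 (hPSI : StmtPSI) (hF : Flow s M A) (hX : Box s M A b B tau p) (hb0 : 0 < b0)
    (hP : Pair z0 Φ Φ') (hq : 1 ≤ q) (hz : cq q r < z0) (hal : 1 ≤ al) (hal' : al ≤ 11 / 10)
    (x : E K) (hx : x ∈ M) :
    th Φ' B tau b0 q r al (A (1 / al + th Φ B tau b0 q r al x) x) = - th Φ B tau b0 q r al x := by
  have al0 : 0 < al := by linarith
  by_cases hc : 0 < B x ∧ |tau x| ≤ 5 / 2
  · exact id1_near hPSI hF hX hb0 hP hq hz hal hal' x hx hc.1 hc.2
  have h0 : th Φ B tau b0 q r al x = 0 := by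
    by_cases hB : 0 < B x
    · have h1 : 5 / 2 < |tau x| := by
        by_contra h
        exact hc ⟨hB, not_lt.mp h⟩
      exact th_zero_off hP.pf hq hz x (al_bound hal h1)
    · exact th_zero_of_B hP.pf hb0 x hB
  rw [h0, add_zero, neg_zero]
  by_contra hne
  have hB' : 0 < B (A (1 / al) x) := by
    by_contra h
    exact hne (th_zero_of_B hP.pf' hb0 _ h)
  have hl : -1 < al * tau (A (1 / al) x) := by
    by_contra h
    exact hne (th_zero_off hP.pf' hq hz _ (Or.inl (not_lt.mp h)))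
  have hr : al * tau (A (1 / al) x) < 5 / 2 := by
    by_contra h
    exact hne (th_zero_off hP.pf' hq hz _ (Or.inr (not_lt.mp h)))
  have h5 : 1 / al ≤ 1 := by rw [div_le_one al0]; exact hal
  have h6 : 0 < 1 / al := by positivity
  have hl' : -1 < tau (A (1 / al) x) := by
    by_contra h
    have h7 : al * tau (A (1 / al) x) ≤ al * (-1) := mul_le_mul_of_nonneg_left (not_lt.mp h) al0.le
    linarith
  have hr' : tau (A (1 / al) x) < 5 / 2 := by
    by_contra h
    have h7 : al * (5 / 2) ≤ al * tau (A (1 / al) x) := mul_le_mul_of_nonneg_left (not_lt.mp h) al0.le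
    linarith
  obtain ⟨e1, e2⟩ := hX.eqv (A (1 / al) x) (hF.maps _ hx) (-(1 / al)) hB'
    (by rw [abs_le]; constructor <;> linarith) (by rw [abs_le]; constructor <;> linarith)
  have e3 : A (-(1 / al)) (A (1 / al) x) = x := by
    rw [← hF.add _ _ x hx, neg_add_cancel, hF.zero x hx]
  rw [e3] at e1 e2
  apply hc
  rw [e1, e2]
  exact ⟨hB', by rw [abs_le]; constructor <;> linarith⟩

/-- second identity -/
lemma id2 (hPSI : StmtPSI) (hF : Flow s M A) (hX : Box s M A b B tau p) (hb0 : 0 < b0)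
    (hP : Pair z0 Φ Φ') (hq : 1 ≤ q) (hz : cq q r < z0) (hal : 1 ≤ al) (hal' : al ≤ 11 / 10)
    (x : E K) (hx : x ∈ M) :
    th Φ B tau b0 q r al (A (-(1 / al) + th Φ' B tau b0 q r al x) x) =
      - th Φ' B tau b0 q r al x := by
  have al0 : 0 < al := by linarith
  by_cases hc : 0 < B x ∧ |tau x| ≤ 5 / 2
  · exact id2_near hPSI hF hX hb0 hP hq hz hal hal' x hx hc.1 hc.2
  have h0 : th Φ' B tau b0 q r al x = 0 := by
    by_cases hB : 0 < B x
    · have h1 : 5 / 2 < |tau x| := by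
        by_contra h
        exact hc ⟨hB, not_lt.mp h⟩
      exact th_zero_off hP.pf' hq hz x (al_bound hal h1)
    · exact th_zero_of_B hP.pf' hb0 x hB
  rw [h0, add_zero, neg_zero]
  by_contra hne
  have hB' : 0 < B (A (-(1 / al)) x) := by
    by_contra h
    exact hne (th_zero_of_B hP.pf hb0 _ h)
  have hl : -1 < al * tau (A (-(1 / al)) x) := by
    by_contra h
    exact hne (th_zero_off hP.pf hq hz _ (Or.inl (not_lt.mp h)))
  have hr : al * tau (A (-(1 / al)) x) < 11 / 10 := by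
    by_contra h
    exact hne (th_zero_right hPSI hP hq hz hal _ (not_lt.mp h))
  have h5 : 1 / al ≤ 1 := by rw [div_le_one al0]; exact hal
  have h6 : 0 < 1 / al := by positivity
  have hl' : -1 < tau (A (-(1 / al)) x) := by
    by_contra h
    have h7 : al * tau (A (-(1 / al)) x) ≤ al * (-1) :=
      mul_le_mul_of_nonneg_left (not_lt.mp h) al0.le
    linarith
  have hr' : tau (A (-(1 / al)) x) < 11 / 10 := by
    by_contra h
    have h7 : al * (11 / 10) ≤ al * tau (A (-(1 / al)) x) :=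
      mul_le_mul_of_nonneg_left (not_lt.mp h) al0.le
    linarith
  obtain ⟨e1, e2⟩ := hX.eqv (A (-(1 / al)) x) (hF.maps _ hx) (1 / al) hB'
    (by rw [abs_le]; constructor <;> linarith) (by rw [abs_le]; constructor <;> linarith)
  have e3 : A (1 / al) (A (-(1 / al)) x) = x := by
    rw [← hF.add _ _ x hx, add_neg_cancel, hF.zero x hx]
  rw [e3] at e1 e2
  apply hc
  rw [e1, e2]
  exact ⟨hB', by rw [abs_le]; constructor <;> linarith⟩

/-- smoothness of `x ↦ A (u x) x` -/
lemma smooth_hT (hF : Flow s M A) (u : E K → ℝ) (hu : ContDiffOn ℝ s u M) :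
    ContDiffOn ℝ s (hT A u) M := by
  have h1 : ContDiffOn ℝ s (fun x : E K => (u x, x)) M := hu.prodMk contDiffOn_id
  exact hF.smooth.comp h1 (fun x hx => ⟨mem_univ _, hx⟩)

lemma smooth_A (hF : Flow s M A) (t : ℝ) : ContDiffOn ℝ s (A t) M :=
  smooth_hT hF (fun _ => t) contDiffOn_const

lemma smooth_th (hSMO : StmtSMO) (hs : s ≤ ∞) (hX : Box s M A b B tau p) (hb0 : 0 < b0)
    (hΦ : PF z0 Φ) (hq : 1 ≤ q) (hz : cq q r < z0) (hal : 1 ≤ al) :
    ContDiffOn ℝ s (th Φ B tau b0 q r al) M := by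
  have h := hSMO K s M A b B tau p b0 z0 Φ q r hs hX hb0 hΦ hq hz
  have h1 : ContDiffOn ℝ s (fun x : E K => (al, x)) M := contDiffOn_const.prodMk contDiffOn_id
  exact h.comp h1 (fun x hx => ⟨show (0 : ℝ) < al by linarith, hx⟩)

end

theorem gDFF : StmtPSI → StmtSMO → StmtDFF := by
  intro hPSI hSMO K s M A b B tau p b0 z0 Φ Φ' q r al hs hF hX hb0 hP hq hz hal hal'
  have hsm : ContDiffOn ℝ s (th Φ B tau b0 q r al) M :=
    smooth_th hSMO hs hX hb0 hP.pf hq hz hal
  have hsm' : ContDiffOn ℝ s (th Φ' B tau b0 q r al) M :=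
    smooth_th hSMO hs hX hb0 hP.pf' hq hz hal
  refine ⟨?_, ?_, ?_, ?_, ?_, ?_⟩
  · intro x hx
    exact hF.maps _ hx
  · intro x hx
    exact hF.maps _ hx
  · intro x hx
    have h1 := id1 hPSI hF hX hb0 hP hq hz hal hal' x hx
    have h2 : A 1 (A (uu Φ B tau b0 q r al x) x) = A (1 / al + th Φ B tau b0 q r al x) x := by
      rw [← hF.add _ _ x hx]
      congr 1
      unfold uu
      ring
    show A (ui A Φ' B tau b0 q r al (A (uu Φ B tau b0 q r al x) x))
      (A (uu Φ B tau b0 q r al x) x) = x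
    rw [← hF.add _ _ x hx]
    have h3 : ui A Φ' B tau b0 q r al (A (uu Φ B tau b0 q r al x) x) +
        uu Φ B tau b0 q r al x = 0 := by
      conv_lhs => unfold ui
      rw [h2, h1]
      unfold uu
      ring
    rw [h3, hF.zero x hx]
  · intro y hy
    have hw : A 1 y ∈ M := hF.maps _ hy
    have h1 := id2 hPSI hF hX hb0 hP hq hz hal hal' (A 1 y) hw
    have h2 : A (ui A Φ' B tau b0 q r al y) y =
        A (-(1 / al) + th Φ' B tau b0 q r al (A 1 y)) (A 1 y) := by
      rw [← hF.add _ _ y hy]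
      congr 1
      unfold ui
      ring
    show A (uu Φ B tau b0 q r al (A (ui A Φ' B tau b0 q r al y) y))
      (A (ui A Φ' B tau b0 q r al y) y) = y
    rw [← hF.add _ _ y hy]
    have h3 : uu Φ B tau b0 q r al (A (ui A Φ' B tau b0 q r al y) y) +
        ui A Φ' B tau b0 q r al y = 0 := by
      conv_lhs => unfold uu
      rw [h2, h1]
      unfold ui
      ring
    rw [h3, hF.zero y hy]
  · apply smooth_hT hF
    exact contDiffOn_const.add hsm
  · apply smooth_hT hF
    have h1 : ContDiffOn ℝ s (fun y => th Φ' B tau b0 q r al (A 1 y)) M :=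
      hsm'.comp (smooth_A hF 1) (fun y hy => hF.maps _ hy)
    exact contDiffOn_const.add h1

end Pool.Agent.Helper62.TOF
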