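import Pool.Agent.Helper56.TOF.Goals2
import Pool.Agent.Helper57.RZ.T1

set_option autoImplicit false

open Set Filter Topology MeasureTheory

open scoped ContDiff

namespace Pool.Agent.Helper62.TOF

open Pool.Agent.Helper56.RZ Pool.Agent.Helper30.CIR Pool.Agent.Helper56.TOF

/-- an unstable vector -/
lemma exists_unstable {K : ℕ} {M : Set (E K)} {f f' : E K → E K} {P : Fin 3 → E K → End K}
    (hP : PartHyp M f f' P) (x0 : E K) (hx0 : x0 ∈ M) :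
    ∃ u : E K, u ≠ 0 ∧ P 2 x0 u = u ∧ (∀ i : Fin 3, i ≠ 2 → P i x0 u = 0) ∧ Pi M x0 u = u := by
  have h1 := (hP.sum x0 hx0).2 2
  obtain ⟨w, hw⟩ : ∃ w, P 2 x0 w ≠ 0 := by
    by_contra h
    push Not at h
    exact h1 (ContinuousLinearMap.ext h)
  have h2 : P 2 x0 (P 2 x0 w) = P 2 x0 w := by
    have h3 := (hP.proj 2).2 x0 hx0
    have h4 : (P 2 x0 * P 2 x0) w = P 2 x0 w := by rw [h3]
    exact h4
  have h5 : ∀ i : Fin 3, i ≠ 2 → P i x0 (P 2 x0 w) = 0 := by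
    intro i hi
    have h3 := hP.orth x0 hx0 i 2 hi
    have h4 : (P i x0 * P 2 x0) w = (0 : End K) w := by rw [h3]
    exact h4
  refine ⟨P 2 x0 w, hw, h2, h5, ?_⟩
  have h6 := (hP.sum x0 hx0).1
  rw [← h6]
  show P 0 x0 (P 2 x0 w) + P 1 x0 (P 2 x0 w) + P 2 x0 (P 2 x0 w) = P 2 x0 w
  rw [h5 0 (by decide), h5 1 (by decide), h2, zero_add, zero_add]

/-- the closure of a group is a group -/
lemma tog_closure {K : ℕ} {M : Set (E K)} {F : E K → E K} (hM : IsClosed M) (hm : MapsTo F M M)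
    (hF : ContinuousOn F M) {ε : ℝ} {J : ℕ} {S : Set (E K)} (hS : S ⊆ M) (h : Tog F ε J S) :
    closure S ⊆ M ∧ Tog F ε J (closure S) := by
  refine ⟨closure_minimal hS hM, ?_⟩
  intro x hx y hy k hk
  have h1 : ContinuousOn F^[k] M := hF.iterate hm k
  have h2 : ContinuousOn (fun p : E K × E K => ‖F^[k] p.2 - F^[k] p.1‖) (M ×ˢ M) := by
    apply ContinuousOn.norm
    apply ContinuousOn.sub
    · exact h1.comp continuousOn_snd (fun p hp => hp.2)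
    · exact h1.comp continuousOn_fst (fun p hp => hp.1)
  have h3 := h2.preimage_isClosed_of_isClosed (hM.prod hM) (isClosed_Iic (a := ε))
  have h4 : S ×ˢ S ⊆ (M ×ˢ M) ∩ (fun p : E K × E K => ‖F^[k] p.2 - F^[k] p.1‖) ⁻¹' Iic ε := by
    rintro ⟨a, b⟩ ⟨ha, hb⟩
    exact ⟨⟨hS ha, hS hb⟩, h a ha b hb k hk⟩
  have h5 := closure_minimal h4 h3
  rw [closure_prod_eq] at h5
  exact (h5 ⟨hx, hy⟩ : (x, y) ∈ _).2

/-- real estimates for the cone -/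
lemma cone_est {K : ℕ} (Q Q0 : End K) (u r : E K) (t η c R : ℝ) (hη : ‖Q - Q0‖ ≤ η)
    (hR : ‖Q‖ ≤ R) (hr : ‖r‖ ≤ c * |t|) (hc : 0 ≤ c * |t|) :
    ‖Q (t • u + r) - t • Q0 u‖ ≤ |t| * (η * ‖u‖) + R * (c * |t|) := by
  have e : Q (t • u + r) - t • Q0 u = t • (Q - Q0) u + Q r := by
    rw [map_add, map_smul, sub_apply, smul_sub]
    abel
  rw [e]
  refine (norm_add_le _ _).trans (add_le_add ?_ ?_)
  · rw [norm_smul, Real.norm_eq_abs]
    apply mul_le_mul_of_nonneg_left _ (abs_nonneg _)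
    exact ((Q - Q0).le_opNorm u).trans (mul_le_mul_of_nonneg_right hη (norm_nonneg _))
  · have hR0 : 0 ≤ R := (norm_nonneg Q).trans hR
    exact (Q.le_opNorm r).trans (mul_le_mul hR hr (norm_nonneg _) hR0)

/-- the geometry near a point -/
lemma local_cone {N K : ℕ} {M : Set (E K)} {f f' : E K → E K} {P : Fin 3 → E K → End K}
    (hP : PartHyp M f f' P) (c : Chart N K M) (x0 : E K) (hx0 : x0 ∈ M) (hW : x0 ∈ c.W)
    (u : E K) (hu : u ≠ 0) (h2 : P 2 x0 u = u) (hi : ∀ i : Fin 3, i ≠ 2 → P i x0 u = 0)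
    (hPi : Pi M x0 u = u) : ∃ e : E N, e ≠ 0 ∧ ∃ ρ > 0, Metric.closedBall (c.φ x0) ρ ⊆ c.V ∧
    ∀ z ∈ Metric.closedBall (c.φ x0) ρ, ∀ t : ℝ, z + t • e ∈ Metric.closedBall (c.φ x0) ρ →
      (∀ i : Fin 3, i ≠ 2 → ‖P i (c.ψ z) (c.ψ (z + t • e) - c.ψ z)‖ ≤
        ‖P 2 (c.ψ z) (c.ψ (z + t • e) - c.ψ z)‖) ∧
      |t| * (‖u‖ / 2) ≤ ‖c.ψ (z + t • e) - c.ψ z‖ := by
  obtain ⟨z0, hz0⟩ : ∃ z0, z0 = c.φ x0 := ⟨_, rfl⟩
  have hz0V : z0 ∈ c.V := by rw [hz0]; exact c.mapsφ x0 ⟨hx0, hW⟩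
  have hψ0 : c.ψ z0 = x0 := by rw [hz0]; exact c.right x0 ⟨hx0, hW⟩
  rw [← hz0]
  have hVn : c.V ∈ 𝓝 z0 := c.openV.mem_nhds hz0V
  have hcd : ContDiffAt ℝ ∞ c.ψ z0 := c.smoothψ.contDiffAt hVn
  have hsd : HasStrictFDerivAt c.ψ (fderiv ℝ c.ψ z0) z0 := hcd.hasStrictFDerivAt (by simp)
  -- the direction
  obtain ⟨e, he⟩ : ∃ e, e = fderiv ℝ c.φ x0 u := ⟨_, rfl⟩
  have hDe : fderiv ℝ c.ψ z0 e = u := by
    have h3 := (Pool.Agent.Helper57.RZ.t1 N K M c z0 hz0V).2.2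
    rw [hψ0] at h3
    have h4 : (fderiv ℝ c.ψ z0 ∘L (fderiv ℝ c.φ x0 ∘L Pi M x0)) u = Pi M x0 u := by rw [h3]
    have h5 : fderiv ℝ c.ψ z0 (fderiv ℝ c.φ x0 (Pi M x0 u)) = Pi M x0 u := h4
    rw [hPi] at h5
    rw [he, h5]
  have he0 : e ≠ 0 := by
    rintro rfl
    rw [map_zero] at hDe
    exact hu hDe.symm
  have hun : 0 < ‖u‖ := norm_pos_iff.mpr hu
  -- constants
  obtain ⟨R, hR⟩ : ∃ R, R = (∑ i, ‖P i x0‖) + 1 := ⟨_, rfl⟩
  have hR1 : 1 ≤ R := by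
    rw [hR]
    have : 0 ≤ ∑ i, ‖P i x0‖ := Finset.sum_nonneg fun i _ => norm_nonneg _
    linarith
  obtain ⟨κ, hκ⟩ : ∃ κ, κ = ‖u‖ / (8 * R * (‖e‖ + 1)) := ⟨_, rfl⟩
  have hκ0 : 0 < κ := by
    rw [hκ]
    have := norm_nonneg e
    positivity
  have hκR : R * (κ * ‖e‖) ≤ ‖u‖ / 8 := by
    have h3 : R * (κ * (‖e‖ + 1)) = ‖u‖ / 8 := by
      rw [hκ]
      have := norm_nonneg e
      field_simp
    have h4 : R * (κ * ‖e‖) ≤ R * (κ * (‖e‖ + 1)) := by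
      apply mul_le_mul_of_nonneg_left _ (by linarith)
      apply mul_le_mul_of_nonneg_left _ hκ0.le
      linarith
    linarith
  have hκ1 : κ * ‖e‖ ≤ ‖u‖ / 8 := by
    have h4 : 0 ≤ κ * ‖e‖ := mul_nonneg hκ0.le (norm_nonneg _)
    nlinarith
  -- neighbourhoods
  have n1 : ∀ᶠ z in 𝓝 z0, ∀ i : Fin 3, ‖P i (c.ψ z) - P i x0‖ ≤ 1 / 8 := by
    rw [eventually_all]
    intro i
    have h3 : ContinuousOn (fun z => P i (c.ψ z)) c.V :=
      ((hP.proj i).1).comp c.smoothψ.continuousOn (fun z hz => (c.mapsψ z hz).1)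
    have h4 : ContinuousAt (fun z => P i (c.ψ z)) z0 := h3.continuousAt hVn
    have h5 : Tendsto (fun z => ‖P i (c.ψ z) - P i x0‖) (𝓝 z0) (𝓝 0) := by
      have h6 : Tendsto (fun z => ‖P i (c.ψ z) - P i x0‖) (𝓝 z0)
          (𝓝 ‖P i (c.ψ z0) - P i x0‖) := (h4.sub continuousAt_const).norm
      have h7 : ‖P i (c.ψ z0) - P i x0‖ = 0 := by rw [hψ0, sub_self, norm_zero]
      rw [h7] at h6
      exact h6
    filter_upwards [h5.eventually (gt_mem_nhds (by norm_num : (0 : ℝ) < 1 / 8))] with z hz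
    exact hz.le
  have n2 := hsd.isLittleO.def hκ0
  obtain ⟨ρ1, hρ1, hb1⟩ := Metric.eventually_nhds_iff_ball.mp (n1.and hVn)
  obtain ⟨ρ2, hρ2, hb2⟩ := Metric.eventually_nhds_iff_ball.mp n2
  refine ⟨e, he0, min ρ1 ρ2 / 2, by positivity, ?_, ?_⟩
  · intro z hz
    apply (hb1 z _).2
    rw [Metric.mem_ball]
    rw [Metric.mem_closedBall] at hz
    have : min ρ1 ρ2 ≤ ρ1 := min_le_left _ _
    linarith
  intro z hz t hzt
  have hmin1 : min ρ1 ρ2 ≤ ρ1 := min_le_left _ _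
  have hmin2 : min ρ1 ρ2 ≤ ρ2 := min_le_right _ _
  rw [Metric.mem_closedBall] at hz hzt
  have hP1 := (hb1 z (by rw [Metric.mem_ball]; linarith)).1
  have hD := hb2 (z + t • e, z) (by
    rw [← ball_prod_same]
    exact ⟨by rw [Metric.mem_ball]; show dist (z + t • e) z0 < ρ2; linarith,
      by rw [Metric.mem_ball]; show dist z z0 < ρ2; linarith⟩)
  have hD' : ‖c.ψ (z + t • e) - c.ψ z - t • u‖ ≤ κ * ‖e‖ * |t| := by
    have h3 : fderiv ℝ c.ψ z0 (z + t • e - z) = t • u := by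
      rw [add_sub_cancel_left, map_smul, hDe]
    have h4 : ‖c.ψ (z + t • e) - c.ψ z - fderiv ℝ c.ψ z0 (z + t • e - z)‖ ≤
      κ * ‖z + t • e - z‖ := hD
    rw [h3, add_sub_cancel_left, norm_smul, Real.norm_eq_abs] at h4
    calc _ ≤ κ * (|t| * ‖e‖) := h4
      _ = κ * ‖e‖ * |t| := by ring
  obtain ⟨r, hr⟩ : ∃ r, r = c.ψ (z + t • e) - c.ψ z - t • u := ⟨_, rfl⟩
  have hyx : c.ψ (z + t • e) - c.ψ z = t • u + r := by rw [hr]; abel
  rw [← hr] at hD'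
  rw [hyx]
  have hRi : ∀ i : Fin 3, ‖P i (c.ψ z)‖ ≤ R := by
    intro i
    have h3 : ‖P i (c.ψ z)‖ ≤ ‖P i x0‖ + ‖P i (c.ψ z) - P i x0‖ := by
      have : P i (c.ψ z) = P i x0 + (P i (c.ψ z) - P i x0) := by abel
      calc ‖P i (c.ψ z)‖ = ‖P i x0 + (P i (c.ψ z) - P i x0)‖ := by rw [← this]
        _ ≤ _ := norm_add_le _ _
    have h4 : ‖P i x0‖ ≤ ∑ i, ‖P i x0‖ :=
      Finset.single_le_sum (f := fun i => ‖P i x0‖) (fun i _ => norm_nonneg _) (Finset.mem_univ i)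
    have h5 := hP1 i
    rw [hR]
    linarith
  have hke : 0 ≤ κ * ‖e‖ * |t| := mul_nonneg (mul_nonneg hκ0.le (norm_nonneg _)) (abs_nonneg _)
  have hest : ∀ i : Fin 3, ‖P i (c.ψ z) (t • u + r) - t • P i x0 u‖ ≤ |t| * (‖u‖ / 4) := by
    intro i
    have h3 := cone_est (P i (c.ψ z)) (P i x0) u r t (1 / 8) (κ * ‖e‖) R (hP1 i) (hRi i) hD' hke
    have h4 : R * (κ * ‖e‖ * |t|) ≤ |t| * (‖u‖ / 8) := by
      have h5 := mul_le_mul_of_nonneg_right hκR (abs_nonneg t)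
      calc R * (κ * ‖e‖ * |t|) = R * (κ * ‖e‖) * |t| := by ring
        _ ≤ ‖u‖ / 8 * |t| := h5
        _ = |t| * (‖u‖ / 8) := by ring
    calc _ ≤ _ := h3
      _ ≤ |t| * (1 / 8 * ‖u‖) + |t| * (‖u‖ / 8) := by linarith
      _ = |t| * (‖u‖ / 4) := by ring
  have htu : ‖t • u‖ = |t| * ‖u‖ := by rw [norm_smul, Real.norm_eq_abs]
  have ht0 : 0 ≤ |t| * ‖u‖ := mul_nonneg (abs_nonneg _) (norm_nonneg _)
  constructor
  · intro i hi'
    have h3 := hest i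
    rw [hi i hi', smul_zero, sub_zero] at h3
    have h4 := hest 2
    rw [h2] at h4
    have h5 : ‖t • u‖ - ‖P 2 (c.ψ z) (t • u + r)‖ ≤ ‖t • u - P 2 (c.ψ z) (t • u + r)‖ :=
      norm_sub_norm_le _ _
    rw [norm_sub_rev] at h5
    rw [htu] at h5
    have h6 : |t| * (‖u‖ / 4) = |t| * ‖u‖ / 4 := by ring
    rw [h6] at h3 h4
    linarith
  · have h5 : ‖t • u‖ - ‖r‖ ≤ ‖t • u + r‖ := by
      have := norm_sub_norm_le (t • u) (-r)
      rwa [norm_neg, sub_neg_eq_add] at this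
    have h6 : κ * ‖e‖ * |t| ≤ ‖u‖ / 8 * |t| := mul_le_mul_of_nonneg_right hκ1 (abs_nonneg t)
    rw [htu] at h5
    have h7 : |t| * (‖u‖ / 2) = |t| * ‖u‖ / 2 := by ring
    have h8 : ‖u‖ / 8 * |t| = |t| * ‖u‖ / 8 := by ring
    rw [h8] at h6
    rw [h7]
    linarith

theorem gVOL : StmtCON → StmtTRL → StmtVOL := by
  intro hCON hTRL N K M m f f' P hM hf hP
  obtain ⟨n, hn, ε, C0, θ, hε, hC0, hθ0, hθ1, hcon⟩ := hCON N K M m f f' P hM hf hP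
  refine ⟨n, hn, ε, ?_⟩
  have hMc : IsClosed M := hM.compact.isClosed
  have hFc : ContinuousOn (f^[n]) M := (hf.smooth.continuousOn).iterate hf.maps n
  have hFm : MapsTo (f^[n]) M M := hf.maps.iterate n
  have loc : ∀ x0 ∈ M, ∃ U ∈ 𝓝 x0, ∃ Cx > 0, ∀ (J : ℕ) (S : Set (E K)), S ⊆ M →
      Tog (f^[n]) ε J S → m (S ∩ U) ≤ ENNReal.ofReal (Cx * θ ^ J) := by
    intro x0 hx0
    obtain ⟨c, hW, hleb⟩ := hM.chart x0 hx0
    obtain ⟨u, hu, hu2, hui, huP⟩ := exists_unstable hP x0 hx0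
    obtain ⟨e, he, ρ, hρ, hBV, hgeo⟩ := local_cone hP c x0 hx0 hW u hu hu2 hui huP
    obtain ⟨C1, hC1, htrl⟩ := hTRL N e (c.φ x0) ρ he
    have hun : 0 < ‖u‖ := norm_pos_iff.mpr hu
    have hφc : ContinuousAt c.φ x0 := c.smoothφ.continuousOn.continuousAt (c.openW.mem_nhds hW)
    refine ⟨c.W ∩ c.φ ⁻¹' (Metric.ball (c.φ x0) ρ), ?_, C1 * (2 * C0 / ‖u‖), by positivity, ?_⟩
    · exact inter_mem (c.openW.mem_nhds hW) (hφc (Metric.ball_mem_nhds _ hρ))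
    intro J S hS hTog
    obtain ⟨hS', hTog'⟩ := tog_closure hMc hFm hFc hS hTog
    obtain ⟨T, hT⟩ : ∃ T, T = Metric.closedBall (c.φ x0) ρ ∩ c.ψ ⁻¹' closure S := ⟨_, rfl⟩
    have hTB : T ⊆ Metric.closedBall (c.φ x0) ρ := by rw [hT]; exact inter_subset_left
    have hTc : IsClosed T := by
      rw [hT]
      exact (c.smoothψ.continuousOn.mono hBV).preimage_isClosed_of_isClosed
        Metric.isClosed_closedBall isClosed_closure
    have hvol : volume T ≤ ENNReal.ofReal (C1 * (2 * C0 * θ ^ J / ‖u‖)) := by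
      apply htrl T _ hTc.measurableSet hTB (by positivity)
      intro z hz t hzt
      have hzB := hTB hz
      have hztB := hTB hzt
      have hx : c.ψ z ∈ closure S := by rw [hT] at hz; exact hz.2
      have hy : c.ψ (z + t • e) ∈ closure S := by rw [hT] at hzt; exact hzt.2
      obtain ⟨g1, g2⟩ := hgeo z hzB t hztB
      have h3 := hcon J (c.ψ z) (hS' hx) (c.ψ (z + t • e)) (hS' hy)
        (fun k hk => hTog' _ hx _ hy k hk) g1
      rw [le_div_iff₀ hun]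
      have h4 : |t| * (‖u‖ / 2) = |t| * ‖u‖ / 2 := by ring
      rw [h4] at g2
      linarith
    have hsub : S ∩ (c.W ∩ c.φ ⁻¹' (Metric.ball (c.φ x0) ρ)) ⊆ c.ψ '' T := by
      rintro x ⟨hxS, hxW, hxB⟩
      refine ⟨c.φ x, ?_, c.right x ⟨hS hxS, hxW⟩⟩
      rw [hT]
      refine ⟨Metric.ball_subset_closedBall hxB, ?_⟩
      show c.ψ (c.φ x) ∈ closure S
      rw [c.right x ⟨hS hxS, hxW⟩]
      exact subset_closure hxS
    calc m (S ∩ (c.W ∩ c.φ ⁻¹' (Metric.ball (c.φ x0) ρ))) ≤ m (c.ψ '' T) := measure_mono hsub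
      _ = volume T := hleb T hTc.measurableSet (hTB.trans hBV)
      _ ≤ ENNReal.ofReal (C1 * (2 * C0 * θ ^ J / ‖u‖)) := hvol
      _ = ENNReal.ofReal (C1 * (2 * C0 / ‖u‖) * θ ^ J) := by
        congr 1
        ring
  choose! U hU Cx hCx hloc using loc
  obtain ⟨s, hs, hcov⟩ := hM.compact.elim_nhds_subcover U hU
  have hC1 : 0 ≤ ∑ x ∈ s, Cx x := Finset.sum_nonneg fun x hx => (hCx x (hs x hx)).le
  refine ⟨1 + ∑ x ∈ s, Cx x, θ, hε, by linarith, hθ0, hθ1, ?_⟩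
  intro J S hS hTog
  have hθJ : 0 ≤ θ ^ J := pow_nonneg hθ0.le J
  have h1 : S ⊆ ⋃ x ∈ s, (S ∩ U x) := by
    intro y hy
    have h2 := hcov (hS hy)
    rw [mem_iUnion₂] at h2 ⊢
    obtain ⟨x, hx, hxy⟩ := h2
    exact ⟨x, hx, hy, hxy⟩
  calc m S ≤ m (⋃ x ∈ s, (S ∩ U x)) := measure_mono h1
    _ ≤ ∑ x ∈ s, m (S ∩ U x) := measure_biUnion_finset_le s _
    _ ≤ ∑ x ∈ s, ENNReal.ofReal (Cx x * θ ^ J) :=
      Finset.sum_le_sum fun x hx => hloc x (hs x hx) J S hS hTog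
    _ = ENNReal.ofReal (∑ x ∈ s, Cx x * θ ^ J) :=
      (ENNReal.ofReal_sum_of_nonneg fun x hx => mul_nonneg (hCx x (hs x hx)).le hθJ).symm
    _ ≤ ENNReal.ofReal ((1 + ∑ x ∈ s, Cx x) * θ ^ J) := by
      apply ENNReal.ofReal_le_ofReal
      rw [← Finset.sum_mul]
      apply mul_le_mul_of_nonneg_right _ hθJ
      linarith

end Pool.Agent.Helper62.TOF
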